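import Pool.Agent.Work.MP_1d48d5_pr.Main

open MeasureTheory ProbabilityTheory Filter Topology Pool.Agent.Work.MP_1d48d5_pr
open scoped BoundedContinuousFunction

namespace Pool.Agent.Work.MP_1d48d5_pr.Old.OneTriple

/-- For `B = 6`, `C = 1/3` (so that the critical value is `3 < B`) and `δ = 7/8`, the normalised
block row sum of a uniform contingency table does not converge in distribution to a centred
normal law, whatever its variance `v`. -/
theorem result (v : NNReal) :
    ¬ ∀ f : ℝ →ᵇ ℝ, Tendsto (fun n : ℕ =>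
        ∫ X, f (((blockSum (dim (7 / 8) n) n X : ℝ) - Bc (1 / 3) * (1 / 3) * n) / √n)
          ∂(uniformOn (tables (margin 6 (1 / 3) (7 / 8) n) (margin 6 (1 / 3) (7 / 8) n))))
      atTop (𝓝 (∫ x, f x ∂(gaussianReal 0 v))) :=
  main v

end Pool.Agent.Work.MP_1d48d5_pr.Old.OneTriple
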